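import Pool.Agent.J6H36.LF.Stm

/-!
# LF-MODEL: a finitely generated field over a perfect field is the function field of a hypersurface
-/

set_option autoImplicit false

universe u

namespace Pool.Agent.J6H27.LF.Model

open MvPolynomial Pool.Agent.J6H36.LF

/-- evaluation through the polynomial in the variable `none` -/
theorem aeval_pt {P : Type} [Field P] {d : ℕ} {A : Type u} [CommRing A] [Algebra P A]
    (t : Fin d → A) (a : A) (g : MvPolynomial (Option (Fin d)) P) :
    aeval (pt a t) g =
      Polynomial.eval₂ (aeval t : MvPolynomial (Fin d) P →ₐ[P] A).toRingHom a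
        (optionEquivLeft P (Fin d) g) := by
  induction g using MvPolynomial.induction_on with
  | C c =>
    rw [optionEquivLeft_C, Polynomial.eval₂_C, aeval_C]
    simp
  | add p q hp hq => rw [map_add, map_add, Polynomial.eval₂_add, hp, hq]
  | mul_X p o hp =>
    rw [map_mul, map_mul, Polynomial.eval₂_mul, hp, aeval_X]
    congr 1
    cases o with
    | none => rw [optionEquivLeft_X_none, Polynomial.eval₂_X]; rfl
    | some i =>
      rw [optionEquivLeft_X_some, Polynomial.eval₂_C]
      simp [pt]

/-- the derivative in the variable `none` -/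
theorem opt_pderiv {P : Type} [Field P] {d : ℕ} (g : MvPolynomial (Option (Fin d)) P) :
    optionEquivLeft P (Fin d) (pderiv none g) =
      Polynomial.derivative (optionEquivLeft P (Fin d) g) := by
  induction g using MvPolynomial.induction_on with
  | C c => rw [pderiv_C, map_zero, optionEquivLeft_C, Polynomial.derivative_C]
  | add p q hp hq => rw [map_add, map_add, map_add, Polynomial.derivative_add, hp, hq]
  | mul_X p o hp =>
    rw [Derivation.leibniz, map_mul, Polynomial.derivative_mul, ← hp, map_add, smul_eq_mul,
      smul_eq_mul, map_mul, map_mul]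
    cases o with
    | none =>
      rw [pderiv_X_self, map_one, optionEquivLeft_X_none, Polynomial.derivative_X]
      ring
    | some i =>
      rw [pderiv_X_of_ne (by simp), map_zero, optionEquivLeft_X_some, Polynomial.derivative_C]
      ring

theorem model_field (P : Type) [Field P] [PerfectField P] (L : Type u) [Field L] [Algebra P L]
    [Algebra.EssFiniteType P L] :
    ∃ (d : ℕ) (t : Fin d → L) (a : L) (f : MvPolynomial (Option (Fin d)) P),
      (∀ x : L, IsAlgebraic (Algebra.adjoin P (Set.range t)) x) ∧
      aeval (pt a t) f = 0 ∧ aeval (pt a t) (pderiv none f) ≠ 0 ∧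
      ∀ (Ω' : Type u) [Field Ω'] [Algebra P Ω'] (t' : Fin d → Ω') (a' : Ω'),
        AlgebraicIndependent P t' → aeval (pt a' t') f = 0 →
          ∃ φ : L →ₐ[P] Ω', ∀ i, φ (t i) = t' i := by
  obtain ⟨s, hs, hsep⟩ := exists_isTranscendenceBasis_and_isSeparable_of_perfectField P L
  let t : Fin s.card → L := fun i => (s.equivFin.symm i : L)
  have hr1 : Set.range t = Set.range ((↑) : s → L) := by
    have : t = ((↑) : s → L) ∘ s.equivFin.symm := rfl
    rw [this, Set.range_comp, s.equivFin.symm.surjective.range_eq, Set.image_univ]
  have hr2 : Set.range t = (s : Set L) := by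
    rw [hr1]; simp
  have ht : AlgebraicIndependent P t := hs.1.comp _ s.equivFin.symm.injective
  let E : IntermediateField P L := IntermediateField.adjoin P (s : Set L)
  have : Algebra.IsSeparable E L := hsep
  have : Algebra.EssFiniteType E L := Algebra.EssFiniteType.of_comp P E L
  have : FiniteDimensional E L := Algebra.finite_of_essFiniteType_of_isAlgebraic
  let pb : PowerBasis E L := Field.powerBasisOfFiniteOfSeparable E L
  have htE : ∀ i, t i ∈ E := fun i => IntermediateField.subset_adjoin P _ (by
    rw [← hr2]; exact ⟨i, rfl⟩)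
  let tE : Fin s.card → E := fun i => ⟨t i, htE i⟩
  let : Algebra (MvPolynomial (Fin s.card) P) E :=
    (aeval tE : MvPolynomial (Fin s.card) P →ₐ[P] E).toRingHom.toAlgebra
  have hval : ∀ r : MvPolynomial (Fin s.card) P,
      algebraMap E L (algebraMap (MvPolynomial (Fin s.card) P) E r) = aeval t r := by
    intro r
    change algebraMap E L (aeval tE r) = aeval t r
    rw [← aeval_algebraMap_apply]
    rfl
  have hinj : Function.Injective (algebraMap (MvPolynomial (Fin s.card) P) E) := by
    intro r r' h
    have h1 := congrArg (algebraMap E L) h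
    rw [hval, hval] at h1
    exact ht h1
  have : FaithfulSMul (MvPolynomial (Fin s.card) P) E :=
    (faithfulSMul_iff_algebraMap_injective _ _).2 hinj
  have : IsFractionRing (MvPolynomial (Fin s.card) P) E := by
    refine IsFractionRing.of_field _ _ fun z => ?_
    have hz : (z : L) ∈ IntermediateField.adjoin P (Set.range t) := by
      rw [hr2]; exact z.2
    obtain ⟨r, r', h⟩ := (IntermediateField.mem_adjoin_range_iff P t _).1 hz
    refine ⟨r, r', (algebraMap E L).injective ?_⟩
    rw [map_div₀, hval, hval]
    exact h
  obtain ⟨b, hbm, hb⟩ := IsLocalization.integerNormalization_spec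
    (nonZeroDivisors (MvPolynomial (Fin s.card) P)) (minpoly E pb.gen)
  set F0 := IsLocalization.integerNormalization
    (nonZeroDivisors (MvPolynomial (Fin s.card) P)) (minpoly E pb.gen) with hF0
  have hb0 : b ≠ 0 := nonZeroDivisors.ne_zero hbm
  have hb' : F0.map (algebraMap (MvPolynomial (Fin s.card) P) E) =
      Polynomial.C (algebraMap (MvPolynomial (Fin s.card) P) E b) * minpoly E pb.gen := by
    rw [hb, ← Polynomial.smul_eq_C_mul, algebraMap_smul]
  have hgen : Polynomial.aeval pb.gen (minpoly E pb.gen) = 0 := minpoly.aeval _ _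
  have hcomp : (aeval t : MvPolynomial (Fin s.card) P →ₐ[P] L).toRingHom =
      (algebraMap E L).comp (algebraMap (MvPolynomial (Fin s.card) P) E) := by
    refine RingHom.ext fun r => ?_
    exact (hval r).symm
  refine ⟨s.card, t, pb.gen, (optionEquivLeft P (Fin s.card)).symm F0, ?_, ?_, ?_, ?_⟩
  · rw [hr1]
    exact fun x => hs.isAlgebraic.isAlgebraic x
  · rw [aeval_pt, AlgEquiv.apply_symm_apply, hcomp, ← Polynomial.eval₂_map, hb',
      Polynomial.eval₂_mul]
    rw [Polynomial.aeval_def] at hgen
    rw [hgen, mul_zero]
  · rw [aeval_pt, opt_pderiv, AlgEquiv.apply_symm_apply, hcomp, ← Polynomial.eval₂_map,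
      ← Polynomial.derivative_map, hb', Polynomial.derivative_C_mul, Polynomial.eval₂_mul,
      Polynomial.eval₂_C]
    refine mul_ne_zero ?_ ?_
    · rw [hval]
      intro h
      exact hb0 (ht (by rw [h, map_zero]))
    · exact (Algebra.IsSeparable.isSeparable E pb.gen).aeval_derivative_ne_zero hgen
  · intro Ω' _ _ t' a' ht' hf
    have hinj' : Function.Injective
        (aeval t' : MvPolynomial (Fin s.card) P →ₐ[P] Ω').toRingHom := ht'
    let ι : E →+* Ω' := IsFractionRing.lift hinj'
    have hι : ∀ r, ι (algebraMap (MvPolynomial (Fin s.card) P) E r) = aeval t' r :=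
      fun r => IsFractionRing.lift_algebraMap hinj' r
    let : Algebra E Ω' := ι.toAlgebra
    have : IsScalarTower P E Ω' := by
      refine IsScalarTower.of_algebraMap_eq fun c => ?_
      have h1 : algebraMap P E c = algebraMap (MvPolynomial (Fin s.card) P) E (C c) := by
        change _ = aeval tE (C c)
        rw [aeval_C]
      change _ = ι (algebraMap P E c)
      rw [h1, hι, aeval_C]
    have hcomp' : (aeval t' : MvPolynomial (Fin s.card) P →ₐ[P] Ω').toRingHom =
        ι.comp (algebraMap (MvPolynomial (Fin s.card) P) E) := by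
      refine RingHom.ext fun r => ?_
      exact (hι r).symm
    have hroot : Polynomial.aeval a' (minpoly E pb.gen) = 0 := by
      rw [aeval_pt, AlgEquiv.apply_symm_apply, hcomp', ← Polynomial.eval₂_map, hb',
        Polynomial.eval₂_mul, Polynomial.eval₂_C, hι] at hf
      rcases mul_eq_zero.1 hf with h | h
      · exact absurd (ht' (by rw [h, map_zero])) hb0
      · exact h
    refine ⟨(pb.lift a' hroot).restrictScalars P, fun i => ?_⟩
    have h1 : t i = algebraMap E L (tE i) := rfl
    change (pb.lift a' hroot) (t i) = t' i
    rw [h1, AlgHom.commutes]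
    change ι (tE i) = t' i
    have h2 : tE i = algebraMap (MvPolynomial (Fin s.card) P) E (X i) := by
      change _ = aeval tE (X i)
      rw [aeval_X]
    rw [h2, hι, aeval_X]

theorem t_MODEL : S_MODEL.{u} := by
  intro P _ _ Ω _ _ Z
  have : Algebra.EssFiniteType P (IntermediateField.adjoin P (Z : Set Ω)) :=
    IntermediateField.essFiniteType_iff.2 ⟨Z, rfl⟩
  obtain ⟨d, t, a, f, h1, h2, h3, h4⟩ :=
    model_field P (IntermediateField.adjoin P (Z : Set Ω))
  exact ⟨_, d, t, a, f, IntermediateField.subset_adjoin P _, h1, h2, h3, h4⟩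

end Pool.Agent.J6H27.LF.Model
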